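import Pool.Agent.MBX.Stmts

/-!
# MBX, row THE: the regularised vector field
-/

set_option autoImplicit false

open MeasureTheory Complex ProbabilityTheory

namespace Pool.Agent.MBX.H23

open Pool.Agent.Helper49_Pauli
open Pool.Agent.Loc (γn PB)
open Pool.Agent.MBX

theorem nn_nonneg {ι : Type} [Fintype ι] [DecidableEq ι] (y : ι → ℝ) : 0 ≤ nn y :=
  Finset.sum_nonneg fun i _ => sq_nonneg (y i)

theorem nn_cont {ι : Type} [Fintype ι] [DecidableEq ι] : Continuous (nn : (ι → ℝ) → ℝ) := by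
  unfold nn
  exact continuous_finset_sum _ fun i _ => (continuous_apply i).pow 2

theorem nn_update {ι : Type} [Fintype ι] [DecidableEq ι] (y : ι → ℝ) (i : ι) (t : ℝ) :
    nn (Function.update y i t) = nn y - y i ^ 2 + t ^ 2 := by
  unfold nn
  have h1 : ∑ j, Function.update y i t j ^ 2 = ∑ j, Function.update (fun j => y j ^ 2) i (t ^ 2) j := by
    refine Finset.sum_congr rfl fun j _ => ?_
    by_cases h : j = i
    · subst h; simp
    · simp [Function.update_of_ne h]
  rw [h1, Finset.sum_update_of_mem (Finset.mem_univ i)]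
  have h2 := Finset.sum_sdiff (f := fun j => y j ^ 2) (Finset.subset_univ {i})
  rw [Finset.sum_singleton] at h2
  linarith

section

variable {cut L : ℝ}

theorem th_pos {s : ℝ} (hs : 0 < s) (y : Mode cut L → ℝ) : 0 < th s y := by
  unfold th
  have := mul_nonneg hs.le (nn_nonneg y)
  positivity

theorem th_sq {s : ℝ} (hs : 0 < s) (y : Mode cut L → ℝ) : th s y ^ 2 * (1 + s * nn y) = 1 := by
  have h0 := mul_nonneg hs.le (nn_nonneg y)
  have h1 : (0 : ℝ) ≤ 1 + s * nn y := by linarith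
  have h2 : (1 + s * nn y) ≠ 0 := by linarith
  unfold th
  rw [inv_pow, Real.sq_sqrt h1]
  field_simp

theorem th_le {s : ℝ} (hs : 0 < s) (y : Mode cut L → ℝ) : th s y ≤ 1 := by
  have h0 := mul_nonneg hs.le (nn_nonneg y)
  have h1 := th_sq hs y
  have h2 := th_pos hs y
  nlinarith [mul_nonneg (sq_nonneg (th s y)) h0]

theorem th_cont {s : ℝ} (hs : 0 < s) : Continuous (th (cut := cut) (L := L) s) := by
  unfold th
  refine Continuous.inv₀ ?_ fun y => ?_
  · exact Real.continuous_sqrt.comp (continuous_const.add (continuous_const.mul nn_cont))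
  · have := mul_nonneg hs.le (nn_nonneg y)
    positivity

theorem th_pb {s : ℝ} (hs : 0 < s) : PB (th (cut := cut) (L := L) s) := by
  refine ⟨th_cont hs, 1, 0, zero_le_one, fun y => ?_⟩
  rw [abs_of_pos (th_pos hs y)]
  simpa using th_le hs y

theorem th_deriv {s : ℝ} (hs : 0 < s) (i : Mode cut L) (y : Mode cut L → ℝ) :
    HasDerivAt (fun t : ℝ => th s (Function.update y i t)) (-(s * y i * th s y ^ 3)) (y i) := by
  have h0 := mul_nonneg hs.le (nn_nonneg y)
  have e : (fun t : ℝ => th s (Function.update y i t)) =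
      fun t : ℝ => (Real.sqrt (1 + s * (nn y - y i ^ 2 + t ^ 2)))⁻¹ := by
    funext t
    unfold th
    rw [nn_update]
  have ev : 1 + s * (nn y - y i ^ 2 + y i ^ 2) = 1 + s * nn y := by ring
  have hp : (0 : ℝ) < 1 + s * nn y := by linarith
  have hd : HasDerivAt (fun t : ℝ => 1 + s * (nn y - y i ^ 2 + t ^ 2)) (s * (2 * y i)) (y i) := by
    have h1 : HasDerivAt (fun t : ℝ => t ^ 2) (2 * y i) (y i) := by
      simpa using hasDerivAt_pow 2 (y i)
    exact ((h1.const_add (nn y - y i ^ 2)).const_mul s).const_add 1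
  have hr := (hd.sqrt (by rw [ev]; exact hp.ne')).fun_inv (by
    rw [ev]; exact (Real.sqrt_pos.2 hp).ne')
  rw [ev] at hr
  rw [e]
  refine hr.congr_deriv ?_
  have hq : Real.sqrt (1 + s * nn y) ≠ 0 := (Real.sqrt_pos.2 hp).ne'
  unfold th
  field_simp

theorem hc_pb (P : Polarization L) (i : Mode cut L) : PB fun y : Mode cut L → ℝ => HC P y i := by
  unfold HC
  refine PB.sum _ fun l _ => ?_
  exact (PB.coord (opp i l)).mul (PB.const _)

end

theorem arith {n s t : ℝ} (hn : 0 ≤ n) (hs : 0 < s) (ht : 0 < t) (h : t ^ 2 * (1 + s * n) = 1) :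
    (s * t ^ 3 + t) ^ 2 * n ^ 2 ≤ 2 * (1 + n / s) := by
  have hq : 0 < 1 + s * n := by positivity
  have ht2 : t ^ 2 = 1 / (1 + s * n) := by field_simp; linarith
  have e : (s * t ^ 3 + t) ^ 2 * n ^ 2 = t ^ 2 * (s * t ^ 2 + 1) ^ 2 * n ^ 2 := by ring
  rw [e, ht2]
  have e2 : 1 / (1 + s * n) * (s * (1 / (1 + s * n)) + 1) ^ 2 * n ^ 2 =
      (s + (1 + s * n)) ^ 2 * n ^ 2 / (1 + s * n) ^ 3 := by
    field_simp
  have e3 : 2 * (1 + n / s) = 2 * (s + n) / s := by field_simp
  rw [e2, e3, div_le_div_iff₀ (by positivity) hs]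
  have hsn : 0 ≤ s * n := by positivity
  have h1 : (s + (1 + s * n)) ^ 2 ≤ 2 * (s ^ 2 + (1 + s * n) ^ 2) := by
    nlinarith [sq_nonneg (s - (1 + s * n))]
  have h2 : (s ^ 2 + (1 + s * n) ^ 2) * n ^ 2 * s ≤ (s + n) * (1 + s * n) ^ 3 := by
    have a1 : s ^ 2 * n ^ 2 * s ≤ s * (1 + s * n) ^ 3 := by
      have b1 : (s * n) ^ 2 ≤ (1 + s * n) ^ 3 := by
        nlinarith [pow_nonneg hsn 3, pow_nonneg hsn 2]
      calc s ^ 2 * n ^ 2 * s = s * (s * n) ^ 2 := by ring
        _ ≤ s * (1 + s * n) ^ 3 := mul_le_mul_of_nonneg_left b1 hs.le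
    have a2 : (1 + s * n) ^ 2 * n ^ 2 * s ≤ n * (1 + s * n) ^ 3 := by
      have b2 : s * n ≤ 1 + s * n := by linarith
      calc (1 + s * n) ^ 2 * n ^ 2 * s = n * (1 + s * n) ^ 2 * (s * n) := by ring
        _ ≤ n * (1 + s * n) ^ 2 * (1 + s * n) := mul_le_mul_of_nonneg_left b2 (by positivity)
        _ = _ := by ring
    nlinarith
  calc (s + (1 + s * n)) ^ 2 * n ^ 2 * s ≤ 2 * (s ^ 2 + (1 + s * n) ^ 2) * n ^ 2 * s := by
        have : 0 ≤ n ^ 2 * s := by positivity
        nlinarith [mul_le_mul_of_nonneg_right h1 this]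
    _ = 2 * ((s ^ 2 + (1 + s * n) ^ 2) * n ^ 2 * s) := by ring
    _ ≤ 2 * ((s + n) * (1 + s * n) ^ 3) := by linarith
    _ = _ := by ring

theorem the (hel : HelStmt) : TheStmt := by
  intro cut L s P hL hcut hs
  obtain ⟨_, hnn, hup⟩ := hel cut L P hL
  refine ⟨th_pb hs, fun y => ⟨th_pos hs y, th_le hs y⟩,
    fun y i => -(s * y i * th s y ^ 3) * HC P y i, fun i => (th_pb hs).mul (hc_pb P i),
    fun i => ?_, fun i y => ?_, fun y => ?_, fun y => ?_⟩
  · exact (((PB.const s).mul (PB.coord i)).mul ((th_pb hs).pow 3)).neg.mul (hc_pb P i)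
  · have e : (fun t : ℝ => th s (Function.update y i t) * HC P (Function.update y i t) i) =
        fun t : ℝ => th s (Function.update y i t) * HC P y i := by
      funext t; rw [hup]
    rw [e]
    exact (th_deriv hs i y).mul_const _
  · have h0 := nn_nonneg y
    have h1 := th_sq hs y
    have h2 := th_pos hs y
    have e : ∑ i, (th s y * HC P y i) ^ 2 = th s y ^ 2 * nn (HC P y) := by
      unfold nn
      rw [Finset.mul_sum]
      exact Finset.sum_congr rfl fun i _ => by ring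
    rw [e, le_div_iff₀ hs]
    have h3 : th s y ^ 2 * nn (HC P y) ≤ th s y ^ 2 * (4 * cut ^ 2 * nn y) :=
      mul_le_mul_of_nonneg_left (hnn y) (by positivity)
    have h4 : th s y ^ 2 * (s * nn y) ≤ 1 := by nlinarith [sq_nonneg (th s y)]
    calc th s y ^ 2 * nn (HC P y) * s ≤ th s y ^ 2 * (4 * cut ^ 2 * nn y) * s :=
          mul_le_mul_of_nonneg_right h3 hs.le
      _ = 4 * cut ^ 2 * (th s y ^ 2 * (s * nn y)) := by ring
      _ ≤ 4 * cut ^ 2 * 1 := mul_le_mul_of_nonneg_left h4 (by positivity)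
      _ = _ := by ring
  · have h0 := nn_nonneg y
    have e : ∑ i, (-(s * y i * th s y ^ 3) * HC P y i - y i * (th s y * HC P y i)) =
        -(s * th s y ^ 3 + th s y) * ∑ i, y i * HC P y i := by
      rw [Finset.mul_sum]
      exact Finset.sum_congr rfl fun i _ => by ring
    rw [e]
    have h1 : (∑ i, y i * HC P y i) ^ 2 ≤ nn y * nn (HC P y) := by
      unfold nn
      exact Finset.sum_mul_sq_le_sq_mul_sq _ _ _
    have h2 : nn y * nn (HC P y) ≤ 4 * cut ^ 2 * nn y ^ 2 := by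
      calc nn y * nn (HC P y) ≤ nn y * (4 * cut ^ 2 * nn y) := mul_le_mul_of_nonneg_left (hnn y) h0
        _ = _ := by ring
    have h3 := arith h0 hs (th_pos hs y) (th_sq hs y)
    calc (-(s * th s y ^ 3 + th s y) * ∑ i, y i * HC P y i) ^ 2 =
          (s * th s y ^ 3 + th s y) ^ 2 * (∑ i, y i * HC P y i) ^ 2 := by ring
      _ ≤ (s * th s y ^ 3 + th s y) ^ 2 * (4 * cut ^ 2 * nn y ^ 2) :=
          mul_le_mul_of_nonneg_left (h1.trans h2) (sq_nonneg _)
      _ = 4 * cut ^ 2 * ((s * th s y ^ 3 + th s y) ^ 2 * nn y ^ 2) := by ring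
      _ ≤ 4 * cut ^ 2 * (2 * (1 + nn y / s)) := mul_le_mul_of_nonneg_left h3 (by positivity)
      _ = _ := by ring

end Pool.Agent.MBX.H23
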